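import Mathlib

/-!
# Antichains in the unit cube: definitions
-/

set_option autoImplicit false

namespace Q110.AC

/-- The unit cube `[0, 1] ^ n` of Euclidean space. -/
def unitCube (n : ℕ) : Set (EuclideanSpace ℝ (Fin n)) := {x | ∀ i, 0 ≤ x i ∧ x i ≤ 1}

/-- An `n`-cube antichain: a subset of the unit cube without two distinct points `x`, `y` with
`x i ≤ y i` for all `i`. -/
def IsCubeAntichain {n : ℕ} (S : Set (EuclideanSpace ℝ (Fin n))) : Prop :=
  S ⊆ unitCube n ∧ ∀ x ∈ S, ∀ y ∈ S, (∀ i, x i ≤ y i) → x = y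

/-- The facet of the unit cube on which the `j`-th coordinate vanishes. -/
def facet (n : ℕ) (j : Fin n) : Set (EuclideanSpace ℝ (Fin n)) := {x ∈ unitCube n | x j = 0}

end Q110.AC
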