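import Mathlib

/-!
# A compact set of numbers none of whose finite positive sums is rational
-/

set_option autoImplicit false

open Set Filter Topology Finset
open scoped Nat BigOperators

namespace Q110.AC

lemma summ (C : ℕ → ℕ) (M : ℕ) (hM : ∀ k, C k ≤ M) :
    Summable fun k : ℕ => (C k : ℝ) / 2 ^ k ! := by
  have h := (LiouvilleNumber.summable (m := 2) one_lt_two).mul_left (M : ℝ)
  refine Summable.of_nonneg_of_le (fun k => by positivity) (fun k => ?_) h
  rw [mul_one_div]
  have : (C k : ℝ) ≤ M := by exact_mod_cast hM k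
  gcongr

/-- Sums of slowly growing positive digits at factorial places are irrational. -/
theorem irr (C : ℕ → ℕ) (M : ℕ) (h1 : ∀ k, 1 ≤ C k) (hM : ∀ k, C k ≤ M) :
    Irrational (∑' k, (C k : ℝ) / 2 ^ k !) := by
  rintro ⟨q, hq⟩
  set b : ℕ := q.den with hb
  have hb0 : 0 < b := q.den_pos
  set n : ℕ := b * M + 1 with hn
  have hs := summ C M hM
  have hsplit := hs.sum_add_tsum_nat_add (n + 1)
  set T : ℝ := ∑' i, (C (i + (n + 1)) : ℝ) / 2 ^ (i + (n + 1))! with hT
  have hTs : Summable fun i : ℕ => (C (i + (n + 1)) : ℝ) / 2 ^ (i + (n + 1))! :=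
    (summable_nat_add_iff (n + 1)).2 hs
  have hTpos : 0 < T := hTs.tsum_pos (fun _ => by positivity) 0 (by
    have := h1 (0 + (n + 1))
    have h2 : (0 : ℝ) < C (0 + (n + 1)) := by exact_mod_cast this
    positivity)
  have hTle : T ≤ M * LiouvilleNumber.remainder 2 n := by
    unfold LiouvilleNumber.remainder
    rw [← tsum_mul_left]
    refine hTs.tsum_le_tsum (fun i => ?_)
      ((LiouvilleNumber.remainder_summable one_lt_two n).mul_left _)
    rw [mul_one_div]
    have : (C (i + (n + 1)) : ℝ) ≤ M := by exact_mod_cast hM _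
    gcongr
  have hr := LiouvilleNumber.remainder_lt n (m := 2) le_rfl
  have hM0 : 0 < M := lt_of_lt_of_le (h1 0) (hM 0)
  have hTlt : T < M * (1 / (2 ^ n !) ^ n) :=
    lt_of_le_of_lt hTle (mul_lt_mul_of_pos_left hr (by exact_mod_cast hM0))
  -- the partial sum is an integer after multiplication with `2 ^ n !`
  have hint : ∃ z : ℤ, (2 : ℝ) ^ n ! * ∑ i ∈ range (n + 1), (C i : ℝ) / 2 ^ i ! = z := by
    refine ⟨∑ i ∈ range (n + 1), (C i : ℤ) * 2 ^ ((n !) - (i !)), ?_⟩
    push_cast
    rw [mul_sum]
    refine sum_congr rfl fun i hi => ?_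
    have hle : i ! ≤ n ! := Nat.factorial_le (by simpa [Nat.lt_succ_iff] using hi)
    have h2 : (2 : ℝ) ^ n ! = 2 ^ ((n !) - (i !)) * 2 ^ i ! := by
      rw [← pow_add, Nat.sub_add_cancel hle]
    rw [h2]
    field_simp
  obtain ⟨z, hz⟩ := hint
  have hbq : (b : ℝ) * q = q.num := by
    have := Rat.den_mul_eq_num q
    exact_mod_cast this
  have hD : (b : ℝ) * 2 ^ n ! * T = ((q.num * 2 ^ (n !) - b * z : ℤ) : ℝ) := by
    have h3 : T = q - ∑ i ∈ range (n + 1), (C i : ℝ) / 2 ^ i ! := by
      rw [hq, ← hsplit]; ring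
    rw [h3]
    push_cast
    rw [← hz, ← hbq]
    ring
  have hpos : 0 < (b : ℝ) * 2 ^ n ! * T := by
    have : (0 : ℝ) < b := by exact_mod_cast hb0
    positivity
  have hlt : (b : ℝ) * 2 ^ n ! * T < 1 := by
    have hb1 : (0 : ℝ) < b := by exact_mod_cast hb0
    calc (b : ℝ) * 2 ^ n ! * T < b * 2 ^ n ! * (M * (1 / (2 ^ n !) ^ n)) := by gcongr
      _ = (b * M) / (2 ^ n !) ^ (b * M) := by
        rw [hn, pow_succ]
        field_simp
      _ ≤ 1 := by
        rw [div_le_one (by positivity)]
        have h4 : ((b * M : ℕ) : ℝ) ≤ ((2 ^ n !) ^ (b * M) : ℕ) := by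
          have h5 : b * M < (2 ^ n !) ^ (b * M) := by
            apply Nat.lt_pow_self
            exact Nat.one_lt_two_pow (Nat.factorial_ne_zero n)
          exact_mod_cast h5.le
        exact_mod_cast h4
  rw [hD] at hpos hlt
  have h6 : 0 < q.num * 2 ^ (n !) - b * z := by exact_mod_cast hpos
  have h7 : q.num * 2 ^ (n !) - b * z < 1 := by exact_mod_cast hlt
  omega

/-- Digits, equal to `1` or `2`. -/
def dig (e : ℕ → Bool) : ℕ → ℕ
  | 0 => 1
  | k + 1 => if e k then 2 else 1

lemma dig_pos (e : ℕ → Bool) (k : ℕ) : 1 ≤ dig e k := by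
  cases k with
  | zero => simp [dig]
  | succ k => simp only [dig]; split_ifs <;> simp

lemma dig_le (e : ℕ → Bool) (k : ℕ) : dig e k ≤ 2 := by
  cases k with
  | zero => simp [dig]
  | succ k => simp only [dig]; split_ifs <;> simp

/-- The number with the given digits at the factorial places. -/
noncomputable def theta (e : ℕ → Bool) : ℝ := ∑' k, (dig e k : ℝ) / 2 ^ k !

lemma theta_continuous : Continuous theta := by
  refine continuous_tsum (u := fun k : ℕ => 2 * (1 / (2 : ℝ) ^ k !)) ?_
    ((LiouvilleNumber.summable (m := 2) one_lt_two).mul_left _) ?_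
  · intro k
    cases k with
    | zero => simp only [dig]; exact continuous_const
    | succ k =>
      have h1 : Continuous fun e : ℕ → Bool => e k := continuous_apply k
      have h2 : Continuous fun t : Bool => ((if t then 2 else 1 : ℕ) : ℝ) / 2 ^ (k + 1)! :=
        continuous_of_discreteTopology
      exact h2.comp h1
  · intro k e
    rw [Real.norm_of_nonneg (by positivity), mul_one_div]
    have : (dig e k : ℝ) ≤ 2 := by exact_mod_cast dig_le e k
    gcongr

lemma theta_lt {e e' : ℕ → Bool} {k : ℕ} (hk : ∀ j < k, e j = e' j) (h0 : e k = false)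
    (h1 : e' k = true) : theta e < theta e' := by
  have hs := summ (dig e) 2 (dig_le e)
  have hs' := summ (dig e') 2 (dig_le e')
  have hsplit := hs.sum_add_tsum_nat_add (k + 2)
  have hsplit' := hs'.sum_add_tsum_nat_add (k + 2)
  unfold theta
  rw [← hsplit, ← hsplit']
  have hT : Summable fun i : ℕ => (dig e (i + (k + 2)) : ℝ) / 2 ^ (i + (k + 2))! :=
    (summable_nat_add_iff (k + 2)).2 hs
  have hT' : Summable fun i : ℕ => (dig e' (i + (k + 2)) : ℝ) / 2 ^ (i + (k + 2))! :=
    (summable_nat_add_iff (k + 2)).2 hs'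
  have hR := LiouvilleNumber.remainder_summable (m := 2) one_lt_two (k + 1)
  have hdiff : (∑' i, (dig e (i + (k + 2)) : ℝ) / 2 ^ (i + (k + 2))!) ≤
      (∑' i, (dig e' (i + (k + 2)) : ℝ) / 2 ^ (i + (k + 2))!) +
        LiouvilleNumber.remainder 2 (k + 1) := by
    unfold LiouvilleNumber.remainder
    rw [← hT'.tsum_add hR]
    refine hT.tsum_le_tsum (fun i => ?_) (hT'.add hR)
    rw [← add_div]
    have h2 : (dig e (i + (k + 2)) : ℝ) ≤ dig e' (i + (k + 2)) + 1 := by
      have h3 := dig_le e (i + (k + 2))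
      have h4 := dig_pos e' (i + (k + 2))
      exact_mod_cast (by omega : dig e (i + (k + 2)) ≤ dig e' (i + (k + 2)) + 1)
    gcongr
  have hr := LiouvilleNumber.remainder_lt (k + 1) (m := 2) le_rfl
  have hr2 : LiouvilleNumber.remainder 2 (k + 1) < 1 / 2 ^ (k + 1)! := by
    refine lt_of_lt_of_le hr ?_
    rw [one_div, one_div]
    gcongr
    exact le_self_pow₀ (one_le_pow₀ one_le_two) (by omega)
  have hsum : ∑ i ∈ range (k + 2), (dig e' i : ℝ) / 2 ^ i ! =
      ∑ i ∈ range (k + 2), (dig e i : ℝ) / 2 ^ i ! + 1 / 2 ^ (k + 1)! := by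
    rw [sum_range_succ, sum_range_succ _ (k + 1)]
    have h5 : ∑ i ∈ range (k + 1), (dig e' i : ℝ) / 2 ^ i ! =
        ∑ i ∈ range (k + 1), (dig e i : ℝ) / 2 ^ i ! := by
      refine sum_congr rfl fun i hi => ?_
      cases i with
      | zero => simp [dig]
      | succ i =>
        have : i < k := by simpa using hi
        simp only [dig, hk i this]
    rw [h5]
    simp only [dig, h0, h1]
    simp
    ring
  linarith

lemma theta_injective : Function.Injective theta := by
  intro e e' h
  by_contra hne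
  have hex : ∃ k, e k ≠ e' k := by
    by_contra hcon
    push Not at hcon
    exact hne (funext hcon)
  classical
  set k := Nat.find hex with hk
  have h1 : e k ≠ e' k := Nat.find_spec hex
  have h2 : ∀ j < k, e j = e' j := fun j hj => by
    by_contra h3
    exact Nat.find_min hex hj h3
  cases hek : e k with
  | false =>
    have hek' : e' k = true := by
      cases h : e' k with
      | true => rfl
      | false => exact absurd (hek.trans h.symm) h1
    exact absurd h (theta_lt h2 hek hek').ne
  | true =>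
    have hek' : e' k = false := by
      cases h : e' k with
      | false => rfl
      | true => exact absurd (hek.trans h.symm) h1
    exact absurd h (theta_lt (fun j hj => (h2 j hj).symm) hek' hek).ne'

/-- Finite nonempty sums of values of `theta` are irrational. -/
theorem theta_sum {ι : Type*} [Fintype ι] [Nonempty ι] (e : ι → ℕ → Bool) :
    Irrational (∑ i, theta (e i)) := by
  have h : ∑ i, theta (e i) = ∑' k, ((∑ i, dig (e i) k : ℕ) : ℝ) / 2 ^ k ! := by
    unfold theta
    rw [← Summable.tsum_finsetSum fun i _ => summ (dig (e i)) 2 (dig_le (e i))]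
    congr 1
    ext k
    push_cast
    rw [sum_div]
  rw [h]
  refine irr _ (2 * Fintype.card ι) (fun k => ?_) (fun k => ?_)
  · obtain ⟨i⟩ := ‹Nonempty ι›
    exact (dig_pos (e i) k).trans (single_le_sum (f := fun i => dig (e i) k)
      (fun _ _ => Nat.zero_le _) (mem_univ i))
  · calc ∑ i, dig (e i) k ≤ ∑ _i : ι, 2 := sum_le_sum fun i _ => dig_le (e i) k
      _ = 2 * Fintype.card ι := by simp [mul_comm]

end Q110.AC
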