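import Pool.Agent.Q110.AC.Digits

/-!
# A singular increasing homeomorphism adapted to a sum-free set
-/

set_option autoImplicit false

open Set Filter Topology MeasureTheory ProbabilityTheory

namespace Q110.AC

/-- Rational translates of the compact set `range theta`. -/
def setA : Set ℝ := ⋃ q : ℚ, (fun x : ℝ => x + q) '' range theta

lemma measurable_setA : MeasurableSet setA := by
  refine MeasurableSet.iUnion fun q => ?_
  have h : IsCompact (range theta) := isCompact_range theta_continuous
  exact (h.image (by fun_prop)).measurableSet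

lemma setA_sum {ι : Type*} [Fintype ι] [Nonempty ι] (a : ι → ℝ) (ha : ∀ i, a i ∈ setA) :
    ∑ i, a i ≠ 0 := by
  intro h0
  have h1 : ∀ i, ∃ (q : ℚ) (e : ℕ → Bool), theta e + q = a i := by
    intro i
    have := ha i
    simp only [setA, mem_iUnion, mem_image, mem_range] at this
    obtain ⟨q, x, ⟨e, rfl⟩, hx⟩ := this
    exact ⟨q, e, hx⟩
  choose q e hqe using h1
  have h2 : ∑ i, theta (e i) = ((-∑ i, q i : ℚ) : ℝ) := by
    push_cast
    have h3 : ∑ i, (theta (e i) + (q i : ℝ)) = 0 := by
      rw [← h0]; exact Finset.sum_congr rfl fun i _ => hqe i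
    rw [Finset.sum_add_distrib] at h3
    linarith
  exact theta_sum e ⟨_, h2.symm⟩

/-- A Borel injection of the line into `range theta`. -/
noncomputable def hh (x : ℝ) : ℝ :=
  theta (PolishSpace.measurableEquivNatBoolOfNotCountable (α := ℝ)
    (not_countable (α := ℝ)) x)

lemma measurable_hh : Measurable hh :=
  theta_continuous.measurable.comp (MeasurableEquiv.measurable _)

lemma hh_injective : Function.Injective hh :=
  theta_injective.comp (MeasurableEquiv.injective _)

lemma hh_mem (x : ℝ) : hh x ∈ range theta := mem_range_self _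

/-- The sum of all rational translates of a measure on `range theta`. -/
noncomputable def mu0 : Measure ℝ :=
  Measure.sum fun q : ℚ => Measure.map (fun x : ℝ => hh x + q) (volume.restrict (Icc 0 1))

instance : SFinite mu0 := by
  unfold mu0
  infer_instance

lemma mu0_apply {s : Set ℝ} (hs : MeasurableSet s) :
    mu0 s = ∑' q : ℚ, volume.restrict (Icc 0 1) ((fun x : ℝ => hh x + q) ⁻¹' s) := by
  unfold mu0
  rw [Measure.sum_apply _ hs]
  congr 1
  ext q
  rw [Measure.map_apply (measurable_hh.add_const _) hs]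

lemma mu0_singleton (x : ℝ) : mu0 {x} = 0 := by
  rw [mu0_apply (measurableSet_singleton x), ENNReal.tsum_eq_zero]
  intro q
  have h : ((fun y : ℝ => hh y + q) ⁻¹' {x}).Subsingleton := by
    intro y hy z hz
    simp only [mem_preimage, mem_singleton_iff] at hy hz
    exact hh_injective (by linarith)
  exact h.measure_zero _

lemma mu0_compl : mu0 setAᶜ = 0 := by
  rw [mu0_apply measurable_setA.compl, ENNReal.tsum_eq_zero]
  intro q
  have h : (fun y : ℝ => hh y + q) ⁻¹' setAᶜ = ∅ := by
    ext y
    simp only [mem_preimage, mem_compl_iff, mem_empty_iff_false, iff_false, not_not]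
    exact mem_iUnion.2 ⟨q, mem_image_of_mem _ (hh_mem y)⟩
  rw [h, measure_empty]

lemma mu0_Ioo {a b : ℝ} (hab : a < b) : mu0 (Ioo a b) ≠ 0 := by
  intro h0
  rw [mu0_apply measurableSet_Ioo, ENNReal.tsum_eq_zero] at h0
  have h1 : volume.restrict (Icc (0 : ℝ) 1) (⋃ q : ℚ, (fun x : ℝ => hh x + q) ⁻¹' Ioo a b) = 0 :=
    measure_iUnion_null h0
  have h2 : (⋃ q : ℚ, (fun x : ℝ => hh x + q) ⁻¹' Ioo a b) = univ := by
    ext x
    simp only [mem_iUnion, mem_preimage, mem_Ioo, mem_univ, iff_true]
    obtain ⟨q, hq1, hq2⟩ := exists_rat_btwn (show a - hh x < b - hh x by linarith)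
    exact ⟨q, by linarith, by linarith⟩
  rw [h2] at h1
  simp at h1

instance : NeZero mu0 := ⟨by
  intro h
  have := mu0_Ioo (zero_lt_one (α := ℝ))
  rw [h] at this
  simp at this⟩

/-- The probability measure behind the construction. -/
noncomputable def mu : Measure ℝ := mu0.toFinite

instance : IsProbabilityMeasure mu := by
  unfold mu
  infer_instance

lemma mu_eq_zero_iff {s : Set ℝ} : mu s = 0 ↔ mu0 s = 0 := toFinite_apply_eq_zero_iff

/-- The distribution function. -/
noncomputable def FF (t : ℝ) : ℝ := cdf mu t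

lemma FF_strictMono : StrictMono FF := by
  intro a b hab
  have h1 : mu (Ioc a b) ≠ 0 := by
    intro h
    have h2 : mu (Ioo a b) = 0 := measure_mono_null Ioo_subset_Ioc_self h
    exact mu0_Ioo hab (mu_eq_zero_iff.1 h2)
  rw [← measure_cdf mu, StieltjesFunction.measure_Ioc] at h1
  simp only [ne_eq, ENNReal.ofReal_eq_zero, not_le] at h1
  unfold FF
  linarith

lemma FF_continuous : Continuous FF := by
  unfold FF
  rw [continuous_iff_continuousAt]
  intro x
  rw [(monotone_cdf mu).continuousAt_iff_leftLim_eq_rightLim, StieltjesFunction.rightLim_eq]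
  have h1 : mu {x} = 0 := mu_eq_zero_iff.2 (mu0_singleton x)
  rw [← measure_cdf mu, StieltjesFunction.measure_singleton, ENNReal.ofReal_eq_zero] at h1
  exact le_antisymm ((monotone_cdf mu).leftLim_le le_rfl) (by linarith)

lemma FF_mem (t : ℝ) : FF t ∈ Ioo (0 : ℝ) 1 := by
  constructor
  · exact lt_of_le_of_lt (cdf_nonneg mu (t - 1)) (FF_strictMono (by linarith : t - 1 < t))
  · exact lt_of_lt_of_le (FF_strictMono (by linarith : t < t + 1)) (cdf_le_one mu (t + 1))

lemma FF_surj {a : ℝ} (ha : a ∈ Ioo (0 : ℝ) 1) : ∃ t, FF t = a := by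
  have h1 := tendsto_cdf_atBot mu
  have h2 := tendsto_cdf_atTop mu
  have h3 : ∃ t, FF t ≤ a := ((h1.eventually_le_const ha.1)).exists
  have h4 : ∃ t, a ≤ FF t := ((h2.eventually_const_le ha.2)).exists
  exact mem_range_of_exists_le_of_exists_ge FF_continuous h3 h4

lemma map_FF : Measure.map FF mu = volume.restrict (Ioo 0 1) := by
  refine Measure.ext_of_Iic _ _ fun a => ?_
  rw [Measure.map_apply FF_continuous.measurable measurableSet_Iic,
    Measure.restrict_apply measurableSet_Iic]
  rcases le_or_gt a 0 with ha | ha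
  · have h1 : FF ⁻¹' Iic a = ∅ := by
      ext t
      simp only [mem_preimage, mem_Iic, mem_empty_iff_false, iff_false, not_le]
      exact lt_of_le_of_lt ha (FF_mem t).1
    have h2 : Iic a ∩ Ioo (0 : ℝ) 1 = ∅ := by
      ext t
      simp only [mem_inter_iff, mem_Iic, mem_Ioo, mem_empty_iff_false, iff_false]
      intro h; linarith [h.1, h.2.1]
    rw [h1, h2]; simp
  rcases le_or_gt 1 a with ha1 | ha1
  · have h1 : FF ⁻¹' Iic a = univ := by
      ext t
      simp only [mem_preimage, mem_Iic, mem_univ, iff_true]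
      exact (FF_mem t).2.le.trans ha1
    have h2 : Iic a ∩ Ioo (0 : ℝ) 1 = Ioo 0 1 := by
      ext t
      simp only [mem_inter_iff, mem_Iic, mem_Ioo, and_iff_right_iff_imp]
      intro h; linarith [h.1, h.2]
    rw [h1, h2]; simp
  · obtain ⟨t, ht⟩ := FF_surj ⟨ha, ha1⟩
    have h1 : FF ⁻¹' Iic a = Iic t := by
      ext s
      simp only [mem_preimage, mem_Iic, ← ht]
      exact FF_strictMono.le_iff_le
    have h2 : Iic a ∩ Ioo (0 : ℝ) 1 = Ioc 0 a := by
      ext s
      simp only [mem_inter_iff, mem_Iic, mem_Ioo, mem_Ioc]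
      constructor
      · intro h; exact ⟨h.2.1, h.1⟩
      · intro h; exact ⟨h.2, h.1, by linarith [h.2]⟩
    rw [h1, h2, ← ofReal_cdf mu t, Real.volume_Ioc]
    congr 1
    rw [sub_zero, ← ht]
    rfl

lemma measurable_image {A : Set ℝ} (hA : MeasurableSet A) : MeasurableSet (FF '' A) :=
  hA.image_of_continuousOn_injOn FF_continuous.continuousOn FF_strictMono.injective.injOn

theorem volume_compl : volume (Icc (0 : ℝ) 1 \ FF '' setA) = 0 := by
  have h1 : volume.restrict (Ioo (0 : ℝ) 1) (FF '' setA)ᶜ = 0 := by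
    rw [← map_FF, Measure.map_apply FF_continuous.measurable
      (measurable_image measurable_setA).compl]
    refine measure_mono_null ?_ (mu_eq_zero_iff.2 mu0_compl)
    intro t ht hA
    exact ht (mem_image_of_mem _ hA)
  rw [Measure.restrict_congr_set Ioo_ae_eq_Icc] at h1
  rw [Measure.restrict_apply (measurable_image measurable_setA).compl] at h1
  rwa [diff_eq, inter_comm]

end Q110.AC
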