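import Mathlib

/-!
# Nonatomic finite measures take all intermediate values
-/

set_option autoImplicit false

open Set Filter Topology MeasureTheory ProbabilityTheory

namespace Q110.AC

lemma continuous_cdf_of_null (μ : Measure ℝ) [IsProbabilityMeasure μ] (h : ∀ x, μ {x} = 0) :
    Continuous (cdf μ) := by
  rw [continuous_iff_continuousAt]
  intro x
  rw [(monotone_cdf μ).continuousAt_iff_leftLim_eq_rightLim, StieltjesFunction.rightLim_eq]
  have h1 := h x
  rw [← measure_cdf μ, StieltjesFunction.measure_singleton, ENNReal.ofReal_eq_zero] at h1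
  exact le_antisymm ((monotone_cdf μ).leftLim_le le_rfl) (by linarith)

lemma cdf_surj (μ : Measure ℝ) [IsProbabilityMeasure μ] (h : ∀ x, μ {x} = 0) {a : ℝ}
    (ha : a ∈ Ioo (0 : ℝ) 1) : ∃ t, cdf μ t = a := by
  have h1 := tendsto_cdf_atBot μ
  have h2 := tendsto_cdf_atTop μ
  have h3 : ∃ t, cdf μ t ≤ a := ((h1.eventually_le_const ha.1)).exists
  have h4 : ∃ t, a ≤ cdf μ t := ((h2.eventually_const_le ha.2)).exists
  exact mem_range_of_exists_le_of_exists_ge (continuous_cdf_of_null μ h) h3 h4

lemma exists_set_real (ν : Measure ℝ) [IsFiniteMeasure ν] (h : ∀ x, ν {x} = 0) {c : ENNReal}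
    (hc : c ≤ ν univ) : ∃ t, MeasurableSet t ∧ ν t = c := by
  rcases eq_or_lt_of_le hc with hc | hc
  · exact ⟨univ, MeasurableSet.univ, hc.symm⟩
  rcases eq_or_ne c 0 with h0 | h0
  · exact ⟨∅, MeasurableSet.empty, by simp [h0]⟩
  have hu : ν univ ≠ 0 := (lt_of_le_of_lt zero_le hc).ne'
  have hut : ν univ ≠ ⊤ := measure_ne_top ν univ
  have hct : c ≠ ⊤ := (hc.trans_le le_top).ne
  set μ : Measure ℝ := (ν univ)⁻¹ • ν with hμ
  have : IsProbabilityMeasure μ := ⟨by
    rw [hμ, Measure.smul_apply, smul_eq_mul, ENNReal.inv_mul_cancel hu hut]⟩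
  have hμ0 : ∀ x, μ {x} = 0 := fun x => by
    rw [hμ, Measure.smul_apply, h x, smul_zero]
  have hu' : 0 < (ν univ).toReal := ENNReal.toReal_pos hu hut
  have hc' : 0 < c.toReal := ENNReal.toReal_pos h0 hct
  have hcu : c.toReal < (ν univ).toReal := (ENNReal.toReal_lt_toReal hct hut).2 hc
  obtain ⟨t, ht⟩ := cdf_surj μ hμ0 (a := c.toReal / (ν univ).toReal)
    ⟨by positivity, by rwa [div_lt_one hu']⟩
  refine ⟨Iic t, measurableSet_Iic, ?_⟩
  rw [cdf_eq_real, hμ, Measure.real, Measure.smul_apply, smul_eq_mul, ENNReal.toReal_mul,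
    ENNReal.toReal_inv] at ht
  rw [← ENNReal.toReal_eq_toReal_iff' (measure_ne_top ν _) hct]
  field_simp at ht
  linarith

/-- A finite measure without point masses on a standard Borel space takes all intermediate
values. -/
theorem exists_set {X : Type*} [MeasurableSpace X] [StandardBorelSpace X] (ν : Measure X)
    (h : ∀ x, ν {x} = 0) {s : Set X} (hs : MeasurableSet s) (hf : ν s ≠ ⊤) {c : ENNReal}
    (hc : c ≤ ν s) : ∃ t ⊆ s, MeasurableSet t ∧ ν t = c := by
  have he := measurableEmbedding_embeddingReal X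
  set e := embeddingReal X
  set ρ : Measure ℝ := Measure.map e (ν.restrict s) with hρ
  have : IsFiniteMeasure (ν.restrict s) := ⟨by simpa using hf.lt_top⟩
  have hρ0 : ∀ x, ρ {x} = 0 := by
    intro x
    rw [hρ, he.map_apply]
    have h1 : (e ⁻¹' {x}).Subsingleton := by
      intro y hy z hz
      exact he.injective (by rw [mem_preimage, mem_singleton_iff] at hy hz; rw [hy, hz])
    rcases h1.eq_empty_or_singleton with h2 | ⟨y, h2⟩
    · rw [h2, measure_empty]
    · rw [h2]
      exact le_antisymm ((Measure.restrict_apply_le _ _).trans (h y).le) zero_le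
  have hρu : ρ univ = ν s := by
    rw [hρ, he.map_apply, preimage_univ, Measure.restrict_apply_univ]
  obtain ⟨t, ht, htc⟩ := exists_set_real ρ hρ0 (c := c) (by rw [hρu]; exact hc)
  refine ⟨e ⁻¹' t ∩ s, inter_subset_right, (he.measurable ht).inter hs, ?_⟩
  rw [← htc, hρ, he.map_apply, Measure.restrict_apply (he.measurable ht)]

end Q110.AC
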