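import Pool.Agent.Q110.AC.Fun
import Pool.Agent.Q110.AC.Sier
import Pool.Agent.Q110.AC.Defs

/-!
# Antichains of maximal Hausdorff measure
-/

set_option autoImplicit false

open Set Filter Topology MeasureTheory ProbabilityTheory
open scoped NNReal ENNReal

namespace Q110.AC

/-! ### The unit cube and its facets -/

lemma unitCube_eq (m : ℕ) :
    unitCube m = WithLp.toLp 2 '' (Icc (0 : Fin m → ℝ) 1) := by
  ext x
  simp only [unitCube, mem_ofPred_eq, mem_image, mem_Icc, Pi.le_def, Pi.zero_apply, Pi.one_apply]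
  constructor
  · intro h
    exact ⟨WithLp.ofLp x, ⟨fun i => (h i).1, fun i => (h i).2⟩, rfl⟩
  · rintro ⟨y, hy, rfl⟩ i
    exact ⟨hy.1 i, hy.2 i⟩

lemma vol_Icc (m : ℕ) : (μH[(m : ℝ)] : Measure (Fin m → ℝ)) (Icc 0 1) = 1 := by
  have h := hausdorffMeasure_pi_real (ι := Fin m)
  rw [Fintype.card_fin] at h
  rw [h, Real.volume_Icc_pi]
  simp

lemma cube_lt_top (m : ℕ) : μH[(m : ℝ)] (unitCube m) < ⊤ := by
  rw [unitCube_eq]
  refine lt_of_le_of_lt ((PiLp.lipschitzWith_toLp 2 (fun _ : Fin m => ℝ)).hausdorffMeasure_image_le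
    (Nat.cast_nonneg m) _) ?_
  rw [vol_Icc, mul_one]
  exact ENNReal.rpow_lt_top_of_nonneg (Nat.cast_nonneg m) ENNReal.coe_ne_top

lemma cube_pos (m : ℕ) : 0 < μH[(m : ℝ)] (unitCube m) := by
  have h := (PiLp.lipschitzWith_ofLp 2 (fun _ : Fin m => ℝ)).hausdorffMeasure_image_le
    (d := (m : ℝ)) (Nat.cast_nonneg m) (unitCube m)
  have h1 : WithLp.ofLp '' unitCube m = Icc (0 : Fin m → ℝ) 1 := by
    rw [unitCube_eq, image_image]
    simp
  rw [h1, vol_Icc] at h
  by_contra h2
  rw [not_lt, nonpos_iff_eq_zero] at h2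
  rw [h2, mul_zero] at h
  simp at h

/-- The inclusion of Euclidean spaces which inserts a zero at place `j`. -/
noncomputable def ins {m : ℕ} (j : Fin (m + 1)) (y : EuclideanSpace ℝ (Fin m)) :
    EuclideanSpace ℝ (Fin (m + 1)) :=
  WithLp.toLp 2 (j.insertNth 0 (WithLp.ofLp y))

lemma ins_isometry {m : ℕ} (j : Fin (m + 1)) : Isometry (ins j) := by
  refine Isometry.of_dist_eq fun x y => ?_
  rw [EuclideanSpace.dist_eq, EuclideanSpace.dist_eq]
  congr 1
  rw [Fin.sum_univ_succAbove _ j]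
  simp [ins]

lemma facet_eq {m : ℕ} (j : Fin (m + 1)) : facet (m + 1) j = ins j '' unitCube m := by
  ext x
  simp only [facet, unitCube, mem_ofPred_eq, mem_image]
  constructor
  · rintro ⟨h, h0⟩
    refine ⟨WithLp.toLp 2 (fun i => x (j.succAbove i)), fun i => h _, ?_⟩
    ext i
    rcases Fin.eq_self_or_eq_succAbove j i with hi | ⟨k, hk⟩
    · subst hi; simp [ins, h0]
    · subst hk; simp [ins]
  · rintro ⟨y, hy, rfl⟩
    refine ⟨fun i => ?_, by simp [ins]⟩
    rcases Fin.eq_self_or_eq_succAbove j i with hi | ⟨k, hk⟩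
    · subst hi; simp [ins]
    · subst hk; simpa [ins] using hy k

lemma facet_measure {m : ℕ} (j : Fin (m + 1)) :
    μH[(m : ℝ)] (facet (m + 1) j) = μH[(m : ℝ)] (unitCube m) := by
  rw [facet_eq, (ins_isometry j).hausdorffMeasure_image (Or.inl (Nat.cast_nonneg m))]

/-! ### Antichains have finite measure -/

/-- Differences with the first coordinate. -/
def dif {m : ℕ} (x : EuclideanSpace ℝ (Fin (m + 1))) : Fin m → ℝ := fun i => x i.succ - x 0

lemma dist_le_of_antichain {m : ℕ} {S : Set (EuclideanSpace ℝ (Fin (m + 1)))}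
    (hS : IsCubeAntichain S) {x y : EuclideanSpace ℝ (Fin (m + 1))} (hx : x ∈ S) (hy : y ∈ S) :
    dist (WithLp.ofLp x) (WithLp.ofLp y) ≤ 2 * dist (dif x) (dif y) := by
  set R := dist (dif x) (dif y) with hR
  have hR0 : 0 ≤ R := dist_nonneg
  have hd : ∀ i : Fin (m + 1), |(x i - y i) - (x 0 - y 0)| ≤ R := by
    intro i
    rcases Fin.eq_zero_or_eq_succ i with hi | ⟨k, hk⟩
    · subst hi; simpa using hR0
    · subst hk
      have := dist_le_pi_dist (dif x) (dif y) k
      rw [Real.dist_eq] at this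
      refine le_trans (le_of_eq ?_) this
      unfold dif
      congr 1
      ring
  have h0 : |x 0 - y 0| ≤ R := by
    by_cases hxy : x = y
    · subst hxy; simpa using hR0
    rcases le_total 0 (x 0 - y 0) with h | h
    · -- some coordinate of `x` is smaller
      have : ∃ k, x k < y k := by
        by_contra hcon
        push Not at hcon
        exact hxy (hS.2 y hy x hx hcon).symm
      obtain ⟨k, hk⟩ := this
      have h1 := hd k
      rw [abs_of_nonneg h]
      rw [abs_le] at h1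
      linarith [h1.1]
    · have : ∃ k, y k < x k := by
        by_contra hcon
        push Not at hcon
        exact hxy (hS.2 x hx y hy hcon)
      obtain ⟨k, hk⟩ := this
      have h1 := hd k
      rw [abs_of_nonpos h]
      rw [abs_le] at h1
      linarith [h1.2]
  rw [dist_pi_le_iff (by positivity)]
  intro i
  rw [Real.dist_eq]
  have h2 := hd i
  calc |x i - y i| = |((x i - y i) - (x 0 - y 0)) + (x 0 - y 0)| := by congr 1; ring
    _ ≤ |(x i - y i) - (x 0 - y 0)| + |x 0 - y 0| := abs_add_le _ _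
    _ ≤ 2 * R := by linarith

lemma antichain_lt_top {m : ℕ} {S : Set (EuclideanSpace ℝ (Fin (m + 1)))}
    (hS : IsCubeAntichain S) : μH[(m : ℝ)] S < ⊤ := by
  set K0 : ℝ≥0 := (Fintype.card (Fin (m + 1)) : ℝ≥0) ^ (1 / (2 : ℝ≥0∞)).toReal with hK0
  set K : ℝ≥0 := K0 * 2 with hK
  set f : S → (Fin m → ℝ) := fun x => dif x.1 with hf
  have hanti : AntilipschitzWith K f := by
    refine AntilipschitzWith.of_le_mul_dist fun x y => ?_
    have h1 := (PiLp.antilipschitzWith_ofLp 2 (fun _ : Fin (m + 1) => ℝ)).le_mul_dist x.1 y.1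
    have h2 := dist_le_of_antichain hS x.2 y.2
    rw [Subtype.dist_eq]
    refine h1.trans ?_
    rw [hK]
    push_cast
    rw [mul_assoc]
    exact mul_le_mul_of_nonneg_left h2 K0.2
  have h3 := hanti.hausdorffMeasure_preimage_le (d := (m : ℝ)) (Nat.cast_nonneg m)
    (Icc (-1) 1)
  have h4 : f ⁻¹' (Icc (-1) 1) = univ := by
    ext x
    simp only [mem_preimage, mem_Icc, mem_univ, iff_true, Pi.le_def, hf, dif, Pi.neg_apply,
      Pi.one_apply]
    have h5 := hS.1 x.2
    exact ⟨fun i => by linarith [(h5 i.succ).1, (h5 0).2],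
      fun i => by linarith [(h5 i.succ).2, (h5 0).1]⟩
  have h6 : μH[(m : ℝ)] (univ : Set S) = μH[(m : ℝ)] S := by
    have := (isometry_subtype_coe (s := S)).hausdorffMeasure_image (d := (m : ℝ))
      (Or.inl (Nat.cast_nonneg m)) univ
    rw [image_univ, Subtype.range_coe] at this
    exact this.symm
  rw [h4, h6] at h3
  refine lt_of_le_of_lt h3 ?_
  have h7 := hausdorffMeasure_pi_real (ι := Fin m)
  rw [Fintype.card_fin] at h7
  rw [h7]
  refine ENNReal.mul_lt_top (ENNReal.rpow_lt_top_of_nonneg (Nat.cast_nonneg m)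
    ENNReal.coe_ne_top) ?_
  exact isCompact_Icc.measure_lt_top

/-! ### The antichain -/

/-- Coordinatewise application of the distribution function. -/
noncomputable def Phi {m : ℕ} (t : Fin m → ℝ) : EuclideanSpace ℝ (Fin m) :=
  WithLp.toLp 2 fun i => FF (t i)

lemma Phi_continuous {m : ℕ} : Continuous (Phi (m := m)) := by
  unfold Phi
  refine (PiLp.continuous_toLp 2 _).comp ?_
  exact continuous_pi fun i => FF_continuous.comp (continuous_apply i)

lemma Phi_injective {m : ℕ} : Function.Injective (Phi (m := m)) := by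
  intro s t h
  funext i
  have h1 : (Phi s) i = (Phi t) i := by rw [h]
  exact FF_strictMono.injective h1

/-- The zero sum hyperplane. -/
def hyp (m : ℕ) : Set (Fin m → ℝ) := {t | ∑ i, t i = 0}

/-- The part of the zero sum hyperplane on which all coordinates except the `j`-th one are in
`setA`. -/
def hypA (m : ℕ) (j : Fin m) : Set (Fin m → ℝ) := {t ∈ hyp m | ∀ i, i ≠ j → t i ∈ setA}

lemma measurable_hyp (m : ℕ) : MeasurableSet (hyp m) := by
  have : IsClosed (hyp m) := isClosed_eq (by fun_prop) continuous_const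
  exact this.measurableSet

lemma measurable_hypA (m : ℕ) (j : Fin m) : MeasurableSet (hypA m j) := by
  have : hypA m j = hyp m ∩ ⋂ i, ⋂ (_ : i ≠ j), (fun t : Fin m → ℝ => t i) ⁻¹' setA := by
    ext t; simp [hypA]
  rw [this]
  exact (measurable_hyp m).inter (MeasurableSet.iInter fun i => MeasurableSet.iInter fun _ =>
    (measurable_pi_apply i) measurable_setA)

lemma measurable_Phi_image {m : ℕ} {H : Set (Fin m → ℝ)} (hH : MeasurableSet H) :
    MeasurableSet (Phi '' H) :=
  hH.image_of_continuousOn_injOn Phi_continuous.continuousOn Phi_injective.injOn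

/-- The antichain. -/
def SS (m : ℕ) : Set (EuclideanSpace ℝ (Fin m)) := Phi '' hyp m

lemma SS_antichain (m : ℕ) : IsCubeAntichain (SS m) := by
  constructor
  · rintro _ ⟨t, _, rfl⟩ i
    have := FF_mem (t i)
    exact ⟨this.1.le, this.2.le⟩
  · rintro _ ⟨s, hs, rfl⟩ _ ⟨t, ht, rfl⟩ h
    have h1 : ∀ i, s i ≤ t i := fun i => FF_strictMono.le_iff_le.1 (h i)
    congr 1
    have h2 : ∑ i, s i = ∑ i, t i := by rw [show ∑ i, s i = 0 from hs, show ∑ i, t i = 0 from ht]
    funext i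
    exact (Finset.sum_eq_sum_iff_of_le fun i _ => h1 i).1 h2 i (Finset.mem_univ i)

/-- Deletion of a coordinate. -/
noncomputable def del {m : ℕ} (j : Fin (m + 1)) (x : EuclideanSpace ℝ (Fin (m + 1))) :
    EuclideanSpace ℝ (Fin m) :=
  WithLp.toLp 2 fun i => x (j.succAbove i)

lemma del_lipschitz {m : ℕ} (j : Fin (m + 1)) : LipschitzWith 1 (del j) := by
  refine LipschitzWith.of_dist_le_mul fun x y => ?_
  rw [NNReal.coe_one, one_mul, EuclideanSpace.dist_eq, EuclideanSpace.dist_eq]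
  apply Real.sqrt_le_sqrt
  rw [Fin.sum_univ_succAbove (fun i => dist (x i) (y i) ^ 2) j]
  simp only [del]
  exact le_add_of_nonneg_left (by positivity)

/-- The points of Euclidean space all of whose coordinates are in the image of `setA`. -/
def GG (m : ℕ) : Set (EuclideanSpace ℝ (Fin m)) := {y | ∀ i, y i ∈ FF '' setA}

lemma GG_subset {m : ℕ} (j : Fin (m + 1)) : GG m ⊆ del j '' (Phi '' hypA (m + 1) j) := by
  intro y hy
  choose a haA hay using hy
  refine ⟨Phi (j.insertNth (-∑ i, a i) a), mem_image_of_mem _ ⟨?_, ?_⟩, ?_⟩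
  · simp only [hyp, mem_ofPred_eq]
    rw [Fin.sum_univ_succAbove _ j]
    simp
  · intro i hi
    rcases Fin.eq_self_or_eq_succAbove j i with h | ⟨k, hk⟩
    · exact absurd h hi
    · subst hk; simpa using haA k
  · ext i
    simp [del, Phi, hay]

lemma cube_le_GG (m : ℕ) : μH[(m : ℝ)] (unitCube m) ≤ μH[(m : ℝ)] (GG m) := by
  have h1 : unitCube m ⊆ GG m ∪
      WithLp.toLp 2 '' {y : Fin m → ℝ | ∃ i, y i ∈ Icc (0 : ℝ) 1 \ FF '' setA} := by
    intro x hx
    by_cases h : x ∈ GG m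
    · exact Or.inl h
    · right
      simp only [GG, mem_ofPred_eq, not_forall] at h
      obtain ⟨i, hi⟩ := h
      exact ⟨WithLp.ofLp x, ⟨i, hx i, hi⟩, rfl⟩
  have h2 : (volume : Measure (Fin m → ℝ)) {y | ∃ i, y i ∈ Icc (0 : ℝ) 1 \ FF '' setA} = 0 := by
    have : {y : Fin m → ℝ | ∃ i, y i ∈ Icc (0 : ℝ) 1 \ FF '' setA} =
        ⋃ i, Function.eval i ⁻¹' (Icc (0 : ℝ) 1 \ FF '' setA) := by
      ext y; simp
    rw [this]
    exact measure_iUnion_null fun i => Measure.pi_eval_preimage_null _ volume_compl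
  have h3 : μH[(m : ℝ)] (WithLp.toLp 2 '' {y : Fin m → ℝ | ∃ i, y i ∈ Icc (0 : ℝ) 1 \ FF '' setA})
      = 0 := by
    refine le_antisymm ((((PiLp.lipschitzWith_toLp 2
      (fun _ : Fin m => ℝ)).hausdorffMeasure_image_le (Nat.cast_nonneg m) _).trans ?_)) zero_le
    have h7 := hausdorffMeasure_pi_real (ι := Fin m)
    rw [Fintype.card_fin] at h7
    rw [h7, h2, mul_zero]
  calc μH[(m : ℝ)] (unitCube m) ≤ μH[(m : ℝ)] (GG m ∪ _) := measure_mono h1
    _ ≤ μH[(m : ℝ)] (GG m) + _ := measure_union_le _ _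
    _ = μH[(m : ℝ)] (GG m) := by rw [h3, add_zero]

lemma cube_le_part {m : ℕ} (j : Fin (m + 1)) :
    μH[(m : ℝ)] (unitCube m) ≤ μH[(m : ℝ)] (Phi '' hypA (m + 1) j) := by
  refine (cube_le_GG m).trans ((measure_mono (GG_subset j)).trans ?_)
  refine ((del_lipschitz j).hausdorffMeasure_image_le (Nat.cast_nonneg m) _).trans ?_
  simp

lemma SS_ge (m : ℕ) : ((m + 1 : ℕ) : ℝ≥0∞) * μH[(m : ℝ)] (unitCube m) ≤
    μH[(m : ℝ)] (SS (m + 1)) := by
  have hdisj : Pairwise (Function.onFun Disjoint fun j : Fin (m + 1) => Phi '' hypA (m + 1) j) := by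
    intro i j hij
    rw [Function.onFun, disjoint_image_iff Phi_injective, Set.disjoint_left]
    rintro t ⟨ht0, hti⟩ ⟨_, htj⟩
    refine setA_sum t (fun k => ?_) ht0
    by_cases hk : k = i
    · exact htj k (by rw [hk]; exact hij)
    · exact hti k hk
  calc ((m + 1 : ℕ) : ℝ≥0∞) * μH[(m : ℝ)] (unitCube m)
      = ∑ _j : Fin (m + 1), μH[(m : ℝ)] (unitCube m) := by simp
    _ ≤ ∑ j : Fin (m + 1), μH[(m : ℝ)] (Phi '' hypA (m + 1) j) :=
        Finset.sum_le_sum fun j _ => cube_le_part j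
    _ = μH[(m : ℝ)] (⋃ j, Phi '' hypA (m + 1) j) := by
        rw [measure_iUnion hdisj fun j => measurable_Phi_image (measurable_hypA _ j), tsum_fintype]
    _ ≤ μH[(m : ℝ)] (SS (m + 1)) := by
        refine measure_mono (iUnion_subset fun j => image_mono fun t ht => ht.1)

theorem main (m : ℕ) (hm : 1 ≤ m) : ∃ S : Set (EuclideanSpace ℝ (Fin (m + 1))),
    IsCubeAntichain S ∧ ∀ j : Fin (m + 1),
      μH[(m : ℝ)] S = ((m + 1 : ℕ) : ℝ≥0∞) * μH[(m : ℝ)] (facet (m + 1) j) ∧
      0 < μH[(m : ℝ)] (facet (m + 1) j) ∧ μH[(m : ℝ)] (facet (m + 1) j) < ⊤ := by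
  have h0 : ∀ x : EuclideanSpace ℝ (Fin (m + 1)), μH[(m : ℝ)] {x} = 0 := by
    have := Measure.nullSingletonClass_hausdorff (EuclideanSpace ℝ (Fin (m + 1)))
      (d := (m : ℝ)) (by exact_mod_cast hm)
    exact fun x => measure_singleton x
  obtain ⟨S, hSS, _, hS⟩ := exists_set (μH[(m : ℝ)]) h0 (measurable_Phi_image (measurable_hyp _))
    (antichain_lt_top (SS_antichain (m + 1))).ne (SS_ge m)
  refine ⟨S, ⟨hSS.trans (SS_antichain _).1, fun x hx y hy h =>
    (SS_antichain _).2 x (hSS hx) y (hSS hy) h⟩, fun j => ?_⟩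
  rw [facet_measure, hS]
  exact ⟨rfl, cube_pos m, cube_lt_top m⟩

end Q110.AC
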